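import Pool.Agent.H93.Fin.Stmt

/-!
# The restated goal follows from the goal of `Pool/Agent/H64/LB/Stmt.lean`
-/

open Topology Set
open Pool.Agent.H59 Pool.Agent.H64.LB
open scoped TensorProduct

namespace Pool.Agent.H93.Fin

theorem HC_eq (k : ℕ) (Y : Type) [TopologicalSpace Y] : HC k Y = HQ k Y := rfl

/-- morphisms -/
noncomputable def Mor.of {X Y : QP} (f : RegMap X Y) : Mor X Y where
  toMap := f.toMap
  regular := f.regular

theorem smooth_of {X : QP} (h : X.IsSmooth) : Smooth X := h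

theorem elliptic_of {Y : Type} [TopologicalSpace Y] (h : RationallyElliptic Y) : Elliptic Y := h

/-- mixed Hodge structures -/
noncomputable def MHS.old {k : ℕ} {Y : Type} [TopologicalSpace Y] (M : MHS (HC k Y)) :
    Pool.Agent.H64.LB.MHS (HQ k Y) where
  W := M.W
  F := M.F
  W_mono := M.W_mono
  F_anti := M.F_anti
  W_bot := M.W_bot
  W_top := M.W_top
  F_top := M.F_top
  F_bot := M.F_bot
  sup_eq := M.sup_eq
  inf_eq := M.inf_eq

theorem MHS.old_h {k : ℕ} {Y : Type} [TopologicalSpace Y] (M : MHS (HC k Y)) (p q : ℤ) :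
    M.old.h p q = M.h p q := rfl

/-- theories of mixed Hodge structures -/
noncomputable def HodgeTheory.old (T : HodgeTheory) : Pool.Agent.H64.LB.HodgeTheory where
  mhs X k := (T.mhs X k).old
  map_W f k j z hz := (T.map _ _ (Mor.of f) k).1 j z hz
  map_F f k p z hz := (T.map _ _ (Mor.of f) k).2 p z hz
  pure X hp hs k := T.pure X hp (smooth_of hs) k

theorem goal_of_old (h : Pool.Agent.H64.LB.Goal) : Goal := by
  obtain ⟨X, h1, h2, h3, h4⟩ := h
  refine ⟨X, h1, h2, elliptic_of h3, fun T => ?_⟩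
  obtain ⟨p, q, hpq, hh⟩ := h4 T.old
  exact ⟨p, q, hpq, hh⟩

end Pool.Agent.H93.Fin
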