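import Pool.Agent.H64.LB.Stmt

/-!
# Statement of the counterexample to Libgober's question (MP_2059f1_ag)

From `Pool/Agent/H64/LB/Stmt.lean` and `Pool/Agent/H59/Sing.lean` we use

* `PN n` : complex projective space with its analytic topology, `pt v` the point of a nonzero
  vector `v : NZ n`, `Pol n` the polynomials in the homogeneous coordinates, `Homog`, `Van`;
* `QP` : quasi-projective complex varieties (locally closed algebraic subsets of some `PN n`),
  `QP.Pt` the space of points with its analytic topology, `QP.IsProjective`, `QP.IsIrreducible`,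
  `QP.IsAffine`;
* `Smp n Y` : the singular simplices of `Y` with `n` vertices, `fc` their faces.

Here we define

* `Mor X Y` : morphisms of quasi-projective varieties, `Smooth X` : smoothness;
* `HC k Y` : singular cohomology `H^k(Y; ℚ)` and `HC.map` the pull-back;
* `MHS H` : mixed Hodge structures on the rational vector space `H`, `MHS.h p q` their Hodge
  numbers, `MHS.IsMor` morphisms, `MHS.Pure` purity;
* `HodgeTheory` : functorial mixed Hodge structures on the cohomology of all quasi-projective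
  varieties which are pure of weight `k` on `H^k` of smooth projective varieties (two of the basic
  properties of Deligne's mixed Hodge structures);
* `Elliptic` : rationally elliptic spaces.
-/

open Topology Set
open Pool.Agent.H59 Pool.Agent.H64.LB
open scoped TensorProduct

namespace Pool.Agent.H93.Fin

/-! ### Morphisms and smoothness -/

/-- the value of the polynomial `f` at the vector `v` -/
noncomputable def ev {n : ℕ} (f : Pol n) (v : Fin (n + 1) → ℂ) : ℂ := MvPolynomial.eval v f

/-- the vector of values at `v` of the polynomials `F 0, …, F m` -/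
noncomputable def evs {n m : ℕ} (F : Fin (m + 1) → Pol n) (v : Fin (n + 1) → ℂ) :
    Fin (m + 1) → ℂ := fun i => ev (F i) v

/-- the vector of the partial derivatives of `f` at `v` -/
noncomputable def grad {n : ℕ} (f : Pol n) (v : Fin (n + 1) → ℂ) : Fin (n + 1) → ℂ :=
  fun j => ev (MvPolynomial.pderiv j f) v

/-- `φ` is regular: Zariski locally it is given by homogeneous polynomials of the same degree -/
def Regular (X Y : QP) (φ : X.Pt → Y.Pt) : Prop :=
  ∀ v₀ : NZ X.N, pt v₀ ∈ X.carrier →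
    ∃ (d : ℕ) (F : Fin (Y.N + 1) → Pol X.N) (g : Pol X.N),
      (∀ i, (F i).IsHomogeneous d) ∧ Homog g ∧ ev g v₀.1 ≠ 0 ∧
      ∀ (v : NZ X.N) (hv : pt v ∈ X.carrier), ev g v.1 ≠ 0 →
        ∃ h : evs F v.1 ≠ 0, (φ ⟨pt v, hv⟩ : PN Y.N) = pt ⟨evs F v.1, h⟩

/-- a morphism of quasi-projective varieties: a (continuous) regular map -/
structure Mor (X Y : QP) where
  toMap : C(X.Pt, Y.Pt)
  regular : Regular X Y toMap

/-- smooth varieties (Jacobian criterion): near every point `X` is the set of common zeros of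
homogeneous polynomials with linearly independent differentials -/
def Smooth (X : QP) : Prop :=
  ∀ v₀ : NZ X.N, pt v₀ ∈ X.carrier →
    ∃ (c : ℕ) (f : Fin c → Pol X.N) (g : Pol X.N),
      (∀ i, Homog (f i)) ∧ Homog g ∧ ev g v₀.1 ≠ 0 ∧
      (∀ v : NZ X.N, ev g v.1 ≠ 0 → (pt v ∈ X.carrier ↔ ∀ i, ev (f i) v.1 = 0)) ∧
      LinearIndependent ℂ (fun i : Fin c => grad (f i) v₀.1)

/-! ### Singular cohomology -/

/-- rational cochains on the singular simplices with `n` vertices -/
def Co (n : ℕ) (Y : Type) [TopologicalSpace Y] : Type := Smp n Y → ℚ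

noncomputable instance (n : ℕ) (Y : Type) [TopologicalSpace Y] : AddCommGroup (Co n Y) :=
  Pi.addCommGroup

noncomputable instance (n : ℕ) (Y : Type) [TopologicalSpace Y] : Module ℚ (Co n Y) :=
  Pi.Function.module _ _ _

/-- The coboundary `(δφ)(s) = ∑ (-1)^i φ(∂_i s)`. -/
noncomputable def dl (n : ℕ) (Y : Type) [TopologicalSpace Y] : Co n Y →ₗ[ℚ] Co (n + 1) Y :=
  cobd n Y

/-- singular cocycles of degree `k` -/
noncomputable def ZC (k : ℕ) (Y : Type) [TopologicalSpace Y] : Submodule ℚ (Co (k + 1) Y) :=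
  LinearMap.ker (dl (k + 1) Y)

/-- singular coboundaries of degree `k` (zero if `k = 0`) -/
noncomputable def BC : (k : ℕ) → (Y : Type) → [TopologicalSpace Y] → Submodule ℚ (Co (k + 1) Y)
  | 0, _, _ => ⊥
  | (k + 1), Y, _ => LinearMap.range (dl (k + 1) Y)

/-- the space of singular cocycles of degree `k` -/
def Cocy (k : ℕ) (Y : Type) [TopologicalSpace Y] : Type := ZC k Y

noncomputable instance (k : ℕ) (Y : Type) [TopologicalSpace Y] : AddCommGroup (Cocy k Y) :=
  Submodule.addCommGroup (ZC k Y)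

noncomputable instance (k : ℕ) (Y : Type) [TopologicalSpace Y] : Module ℚ (Cocy k Y) :=
  Submodule.module (ZC k Y)

/-- the coboundaries as a subspace of the space of cocycles -/
noncomputable def BZ (k : ℕ) (Y : Type) [TopologicalSpace Y] : Submodule ℚ (Cocy k Y) :=
  (BC k Y).submoduleOf (ZC k Y)

/-- Singular cohomology `H^k(Y; ℚ)`. -/
def HC (k : ℕ) (Y : Type) [TopologicalSpace Y] : Type := Cocy k Y ⧸ BZ k Y

noncomputable instance (k : ℕ) (Y : Type) [TopologicalSpace Y] : AddCommGroup (HC k Y) :=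
  Submodule.Quotient.addCommGroup (BZ k Y)

noncomputable instance (k : ℕ) (Y : Type) [TopologicalSpace Y] : Module ℚ (HC k Y) :=
  Submodule.Quotient.module (BZ k Y)

section

variable {Y Y' : Type} [TopologicalSpace Y] [TopologicalSpace Y']

/-- pull-back of cochains -/
noncomputable def pb (n : ℕ) (f : C(Y, Y')) : Co n Y' →ₗ[ℚ] Co n Y := pbQ n f

theorem dl_pb (n : ℕ) (f : C(Y, Y')) (φ : Co n Y') : dl n Y (pb n f φ) = pb (n + 1) f (dl n Y' φ) :=
  rfl

theorem pb_mem_ZC (k : ℕ) (f : C(Y, Y')) (φ : Co (k + 1) Y') (h : φ ∈ ZC k Y') :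
    pb (k + 1) f φ ∈ ZC k Y := by
  change dl (k + 1) Y (pb (k + 1) f φ) = 0
  have h' : dl (k + 1) Y' φ = 0 := h
  rw [dl_pb, h', map_zero]

theorem pb_mem_BC (k : ℕ) (f : C(Y, Y')) (φ : Co (k + 1) Y') (h : φ ∈ BC k Y') :
    pb (k + 1) f φ ∈ BC k Y := by
  cases k with
  | zero =>
    have h' : φ = 0 := h
    rw [h', map_zero]
    exact Submodule.zero_mem _
  | succ k =>
    obtain ⟨ψ, rfl⟩ := h
    exact ⟨pb (k + 1) f ψ, dl_pb _ _ _⟩

/-- pull-back of cocycles -/
noncomputable def pbZ (k : ℕ) (f : C(Y, Y')) : Cocy k Y' →ₗ[ℚ] Cocy k Y :=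
  (pb (k + 1) f).restrict (pb_mem_ZC k f)

theorem pbZ_mem (k : ℕ) (f : C(Y, Y')) (x : Cocy k Y') (h : x ∈ BZ k Y') : pbZ k f x ∈ BZ k Y :=
  pb_mem_BC k f x.1 h

/-- The pull-back `f^* : H^k(Y'; ℚ) → H^k(Y; ℚ)`. -/
noncomputable def HC.map (k : ℕ) (f : C(Y, Y')) : HC k Y' →ₗ[ℚ] HC k Y :=
  Submodule.mapQ (BZ k Y') (BZ k Y) (pbZ k f) (pbZ_mem k f)

end

/-! ### Mixed Hodge structures -/

/-- the complexification `ℂ ⊗ H` of the rational vector space `H` -/
def CT (H : Type) [AddCommGroup H] [Module ℚ H] : Type := ℂ ⊗[ℚ] H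

noncomputable instance (H : Type) [AddCommGroup H] [Module ℚ H] : AddCommGroup (CT H) :=
  TensorProduct.addCommGroup

noncomputable instance (H : Type) [AddCommGroup H] [Module ℚ H] : Module ℂ (CT H) :=
  TensorProduct.leftModule

/-- complex conjugation as a rational linear map -/
noncomputable def cjQ : ℂ →ₗ[ℚ] ℂ := Complex.conjAe.toAlgHom.toLinearMap.restrictScalars ℚ

section MHS

variable {H H' : Type} [AddCommGroup H] [Module ℚ H] [AddCommGroup H'] [Module ℚ H']

/-- complex conjugation on `ℂ ⊗ H`, `z ⊗ h ↦ conj z ⊗ h` -/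
noncomputable def cjF (x : CT H) : CT H := TensorProduct.map cjQ (LinearMap.id : H →ₗ[ℚ] H) x

theorem cjF_add (x y : CT H) : cjF (x + y) = cjF x + cjF y := map_add _ x y

theorem cjF_smul (c : ℂ) (x : CT H) : cjF (c • x) = starRingEnd ℂ c • cjF x :=
  (cj H).map_smul' c x

variable (H) in
/-- complex conjugation on `ℂ ⊗ H` as a semilinear map -/
noncomputable def cjL : CT H →ₛₗ[starRingEnd ℂ] CT H where
  toFun := cjF
  map_add' := cjF_add
  map_smul' := cjF_smul

/-- the image of a complex subspace under complex conjugation -/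
noncomputable def bar (V : Submodule ℂ (CT H)) : Submodule ℂ (CT H) := V.map (cjL H)

/-- the complexification of a rational subspace -/
noncomputable def cx (V : Submodule ℚ H) : Submodule ℂ (CT H) := V.baseChange ℂ

/-- the complexification of a rational linear map -/
noncomputable def cxm (f : H →ₗ[ℚ] H') : CT H →ₗ[ℂ] CT H' := f.baseChange ℂ

/-- the preimage in `W_k` of `F^p Gr^W_k` (with complex coefficients) -/
noncomputable def FW (W : ℤ → Submodule ℚ H) (F : ℤ → Submodule ℂ (CT H)) (k p : ℤ) :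
    Submodule ℂ (CT H) :=
  (F p ⊓ cx (W k)) ⊔ cx (W (k - 1))

variable (H) in
/-- A mixed Hodge structure on the rational vector space `H`: an increasing filtration `W` of `H`
and a decreasing filtration `F` of `ℂ ⊗ H`, both finite, such that `F` induces on
`ℂ ⊗ Gr^W_k` a Hodge structure of weight `k`, i.e. `Gr^W_k = F^p ⊕ conj (F^(k+1-p))` for all `p`. -/
structure MHS where
  /-- the weight filtration -/
  W : ℤ → Submodule ℚ H
  /-- the Hodge filtration -/
  F : ℤ → Submodule ℂ (CT H)
  W_mono : Monotone W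
  F_anti : Antitone F
  W_bot : ∃ a, W a = ⊥
  W_top : ∃ b, W b = ⊤
  F_top : ∃ a, F a = ⊤
  F_bot : ∃ b, F b = ⊥
  sup_eq : ∀ k p : ℤ, FW W F k p ⊔ bar (FW W F k (k + 1 - p)) = cx (W k)
  inf_eq : ∀ k p : ℤ, FW W F k p ⊓ bar (FW W F k (k + 1 - p)) = cx (W (k - 1))

/-- The Hodge number `h^{p,q} = dim Gr_F^p Gr^W_{p+q}`. -/
noncomputable def MHS.h (M : MHS H) (p q : ℤ) : ℕ :=
  Module.finrank ℂ (FW M.W M.F (p + q) p ⧸
    (FW M.W M.F (p + q) (p + 1)).submoduleOf (FW M.W M.F (p + q) p))

/-- the linear map `f` is a morphism of mixed Hodge structures -/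
def MHS.IsMor (M : MHS H) (M' : MHS H') (f : H →ₗ[ℚ] H') : Prop :=
  (∀ (j : ℤ), ∀ z ∈ M.W j, f z ∈ M'.W j) ∧ ∀ (p : ℤ), ∀ z ∈ M.F p, cxm f z ∈ M'.F p

/-- the mixed Hodge structure is pure of weight `k` -/
def MHS.Pure (M : MHS H) (k : ℤ) : Prop := M.W (k - 1) = ⊥ ∧ M.W k = ⊤

end MHS

/-- A functorial theory of mixed Hodge structures on the rational cohomology of quasi-projective
complex varieties which is pure on smooth projective varieties. By Deligne (Théorie de Hodge II,
III) the canonical mixed Hodge structures form such a theory. -/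
structure HodgeTheory where
  /-- the mixed Hodge structure on `H^k(X; ℚ)` -/
  mhs : ∀ (X : QP) (k : ℕ), MHS (HC k X.Pt)
  map : ∀ (X Y : QP) (f : Mor X Y) (k : ℕ), (mhs Y k).IsMor (mhs X k) (HC.map k f.toMap)
  pure : ∀ X : QP, X.IsProjective → Smooth X → ∀ k : ℕ, (mhs X k).Pure k

/-! ### Rational ellipticity -/

/-- the rational homotopy group `π_(k+2)(Y, y) ⊗ ℚ` -/
abbrev PiQ (k : ℕ) (Y : Type) [TopologicalSpace Y] (y : Y) : Type :=
  ℚ ⊗[ℤ] Additive (HomotopyGroup.Pi (k + 2) Y y)

/-- `Y` is rationally elliptic: simply connected, with finite dimensional total rational cohomology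
and finite dimensional total rational homotopy. -/
def Elliptic (Y : Type) [TopologicalSpace Y] : Prop :=
  SimplyConnectedSpace Y ∧
  ((∀ k : ℕ, Module.Finite ℚ (HC k Y)) ∧ ∃ K : ℕ, ∀ k ≥ K, Subsingleton (HC k Y)) ∧
  ∀ y : Y, (∀ k : ℕ, Module.Finite ℚ (PiQ k Y y)) ∧ ∃ K : ℕ, ∀ k ≥ K, Subsingleton (PiQ k Y y)

/-- The theorem: there is an irreducible affine complex variety `X` which is rationally
elliptic and has, for every theory of mixed Hodge structures as above, a nonzero mixed Hodge number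
`h^{3,p,q}(X)` with `p ≠ q`. -/
def Goal : Prop :=
  ∃ X : QP, X.IsAffine ∧ X.IsIrreducible ∧ Elliptic X.Pt ∧
    ∀ T : HodgeTheory, ∃ p q : ℤ, p ≠ q ∧ (T.mhs X 3).h p q ≠ 0

end Pool.Agent.H93.Fin
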